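import Mathlib
import Pool.Agent.Helper495_PQ.Fin
import Pool.Agent.Helper495_SP.Cyc

/-!
# MP_3327f6_al, Q1 and Q2: yes

The prime graph question has a positive answer for every finite group, in particular for the O'Nan
group and for the Monster. More generally: for a finite group `G`, primes `p`, `q` and `a : ℕ`, the
group of normalised units of `ℤ[G]` has an element of order `p ^ a * q` if and only if `G` has one.
-/

set_option autoImplicit false

namespace Pool.Agent.Results.MP_3327f6_al.PrimeGraphAllFinite

open Pool.Agent.Helper495_SP Pool.Agent.Helper495_PQ

/-- The prime graph question has a positive answer for `G`: if `p` and `q` are primes and the group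
of normalised units of `ℤ[G]` has an element of order `p * q`, then so has `G`. -/
def PQ (G : Type) [Group G] : Prop :=
  ∀ p q : ℕ, p.Prime → q.Prime →
    (∃ u : (MonoidAlgebra ℤ G)ˣ,
      MonoidAlgebra.lift ℤ ℤ G (1 : G →* ℤ) (u : MonoidAlgebra ℤ G) = 1 ∧ orderOf u = p * q) →
    ∃ g : G, orderOf g = p * q

/-- For every finite group `G`, in particular for the O'Nan group and for the Monster, the prime
graph question has a positive answer. -/
theorem result (G : Type) [Group G] [Finite G] : PQ G := by
  rintro p q hp hq ⟨u, haug, hu⟩
  by_cases hpq : p = q
  · subst hpq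
    have := exists_of_prime_pow p 2 hp u haug (by rw [hu, sq])
    rwa [sq] at this
  · have := order_pa_q p q 1 hp hq hpq le_rfl u haug (by rw [pow_one, hu])
    rwa [pow_one] at this

end Pool.Agent.Results.MP_3327f6_al.PrimeGraphAllFinite
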